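import Pool.Agent.H98.RFT.Targets3
import Pool.Agent.H98.RFT.Basic

/-!
Board rft_modules (MP_057a7e_pr), row ANN1: the middle of the annulus.
-/

set_option autoImplicit false

noncomputable section

open MeasureTheory ProbabilityTheory Filter Topology

namespace Pool.Agent.H14.RFT

open Pool.Agent.H98.RFC Pool.Agent.H98.RFZ Pool.Agent.H98.RFT

theorem fdet_add (p x y : Site) : fdet p (x + y) = fdet p x + fdet p y := by
  simp only [fdet, Prod.fst_add, Prod.snd_add]
  ring

theorem gdot_add (p x y : Site) : gdot p (x + y) = gdot p x + gdot p y := by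
  simp only [gdot, Prod.fst_add, Prod.snd_add]
  ring

theorem nrm_pos {p : Site} (hp : p ≠ 0) : 0 < nrm p := by
  unfold nrm
  refine Real.sqrt_pos.2 ?_
  have h1 : 0 < nsq p := by
    unfold nsq
    rcases eq_or_ne p.1 0 with h | h
    · have h2 : p.2 ≠ 0 := fun h2 => hp (Prod.ext h h2)
      positivity
    · positivity
  exact_mod_cast h1

instance : IsProbabilityMeasure gam := by
  unfold gam
  infer_instance

theorem cont_scale (ε : ℝ) : Continuous (fun η : Site → ℝ => fun x => ε * η x) := by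
  fun_prop

/-- Integrability of the probabilities. -/
theorem int_QP (hCNT : D_CNT) {R : ℕ} {J : Site → ℝ} (hJ : IsCoupling R J) {T : ℝ} (hT : 0 < T)
    (ε : ℝ) (W : Finset Site) (A : Set Site → Finset (Site × Site) → Prop) :
    Integrable (fun η : Site → ℝ => QP R J (fun x => ε * η x) T W A) gam := by
  have hc : Continuous (fun η : Site → ℝ => QP R J (fun x => ε * η x) T W A) :=
    ((hCNT R J T hT W).2.1 A).comp (cont_scale ε)
  refine Integrable.of_bound hc.measurable.aestronglyMeasurable 1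
    (Eventually.of_forall fun η => ?_)
  rw [Real.norm_eq_abs, abs_of_nonneg (QP_nonneg hJ _ hT W A)]
  exact QP_le_one hJ _ hT W A

/-- Integrability of the influences. -/
theorem int_inf (hINF : D_INF) (hCNT : D_CNT) {R : ℕ} {J : Site → ℝ} (hJ : IsCoupling R J) {T : ℝ}
    (hT : 0 < T) (ε : ℝ) (W : Finset Site) {x : Site} (hx : x ∈ W) :
    Integrable (fun η : Site → ℝ => inf1 R J (fun z => ε * η z) T W x) gam := by
  have hc : Continuous (fun η : Site → ℝ => inf1 R J (fun z => ε * η z) T W x) :=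
    ((hCNT R J T hT W).2.2 x).comp (cont_scale ε)
  refine Integrable.of_bound hc.measurable.aestronglyMeasurable 1
    (Eventually.of_forall fun η => ?_)
  have h := (hINF R J hJ (fun z => ε * η z) T hT).1 W x hx
  rw [Real.norm_eq_abs, abs_of_nonneg h.2.1]
  exact h.2.2

/-- Translation of the influence. -/
theorem inf_trans (hTRQ : D_TRQ) (hCNT : D_CNT) (hTRG : T_TRG) {R : ℕ} {J : Site → ℝ}
    {T : ℝ} (hT : 0 < T) (ε : ℝ) (W : Finset Site) (x : Site) :
    ∫ η, inf1 R J (fun z => ε * η z) T (W.image fun z => x + z) x ∂gam =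
      ∫ η, inf1 R J (fun z => ε * η z) T W 0 ∂gam := by
  have hc : Continuous (fun η : Site → ℝ => inf1 R J (fun z => ε * η z) T W 0) :=
    ((hCNT R J T hT W).2.2 0).comp (cont_scale ε)
  have hm : Measurable (fun (η : Site → ℝ) (z : Site) => η (x + z)) :=
    measurable_pi_lambda _ fun z => measurable_pi_apply (x + z)
  have h1 := integral_map (μ := gam) hm.aemeasurable
    (f := fun η : Site → ℝ => inf1 R J (fun z => ε * η z) T W 0)
    hc.measurable.aestronglyMeasurable
  rw [hTRG x] at h1
  rw [h1]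
  refine integral_congr_ae (Eventually.of_forall fun η => ?_)
  have h2 := (hTRQ R J (fun z => ε * η z) T W x).2 0
  rw [add_zero] at h2
  exact h2

theorem pf_ANN1 (hINF : D_INF) (hTRQ : D_TRQ) (hCNT : D_CNT) (hTRG : T_TRG) (hRCT : P_RCT) :
    P_ANNT := by
  classical
  intro R J hJ T ε hT p K w hp hK hw x hx1 hx2 hx3
  have hn := nrm_pos hp
  have hin : ∀ w' : ℝ, 0 ≤ w' → ∀ z : Site, z ∈ rect p K w' ↔
      |(fdet p z : ℝ)| ≤ w' * nrm p ∧ |(gdot p z : ℝ)| ≤ K * w' * nrm p :=
    fun w' hw' => (hRCT p K w' hp hK hw').1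
  set W : Finset Site := (rect p K (w / 2)).image fun z => x + z with hW
  have hWsub : W ⊆ rect p K (4 * w) \ rect p K w := by
    intro y hy
    rw [hW, Finset.mem_image] at hy
    obtain ⟨z, hz, rfl⟩ := hy
    obtain ⟨hz1, hz2⟩ := (hin (w / 2) (by linarith) z).1 hz
    have hf : ((fdet p (x + z) : ℤ) : ℝ) = fdet p x + fdet p z := by rw [fdet_add]; push_cast; rfl
    have hg : ((gdot p (x + z) : ℤ) : ℝ) = gdot p x + gdot p z := by rw [gdot_add]; push_cast; rfl
    have hwn : 0 < w * nrm p := by positivity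
    have hKwn : 0 < K * w * nrm p := by positivity
    rw [Finset.mem_sdiff, hin (4 * w) (by linarith), hin w hw.le, hf, hg]
    refine ⟨⟨?_, ?_⟩, ?_⟩
    · refine (abs_add_le _ _).trans ?_
      nlinarith
    · refine (abs_add_le _ _).trans ?_
      nlinarith
    · rintro ⟨h1, h2⟩
      have h4 : |(fdet p x : ℝ)| ≤ |(fdet p x : ℝ) + fdet p z| + |(fdet p z : ℝ)| := by
        have h5 := abs_add_le ((fdet p x : ℝ) + fdet p z) (-(fdet p z : ℝ))
        rw [abs_neg, add_neg_cancel_right] at h5
        exact h5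
      have h6 : |(gdot p x : ℝ)| ≤ |(gdot p x : ℝ) + gdot p z| + |(gdot p z : ℝ)| := by
        have h5 := abs_add_le ((gdot p x : ℝ) + gdot p z) (-(gdot p z : ℝ))
        rw [abs_neg, add_neg_cancel_right] at h5
        exact h5
      rcases hx3 with h7 | h7
      · nlinarith
      · nlinarith
  have h0 : (0 : Site) ∈ rect p K (w / 2) := by
    rw [hin (w / 2) (by linarith)]
    have h1 : fdet p 0 = 0 := by simp [fdet]
    have h2 : gdot p 0 = 0 := by simp [gdot]
    rw [h1, h2]
    simp only [Int.cast_zero, abs_zero]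
    constructor <;> positivity
  have hxW : x ∈ W := by
    rw [hW, Finset.mem_image]
    exact ⟨0, h0, add_zero x⟩
  have hdis : Disjoint (rect p K w) (rect p K (4 * w) \ rect p K w) := Finset.disjoint_sdiff
  unfold mKT
  rw [← inf_trans hTRQ hCNT hTRG hT ε (rect p K (w / 2)) x, ← hW]
  unfold PA
  refine integral_mono (int_QP hCNT hJ hT ε _ _) (int_inf hINF hCNT hJ hT ε W hxW) fun η => ?_
  exact (hINF R J hJ (fun z => ε * η z) T hT).2.2 W _ (rect p K w) hWsub hdis x hxW

end Pool.Agent.H14.RFT
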