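import Pool.Agent.H14.RFT.ANN1

/-!
Board rft_modules (MP_057a7e_pr), row MAIN1: the relative decay inequality at positive temperature.
-/

set_option autoImplicit false

noncomputable section

open MeasureTheory ProbabilityTheory Filter Topology

namespace Pool.Agent.H14.RFT

open Pool.Agent.H98.RFC Pool.Agent.H98.RFZ Pool.Agent.H98.RFT

theorem pf_MAIN1 (h1 : P_TLBT) (h2 : P_CUTT) (h3 : P_ANNT) (h4 : P_AREA) (h5 : P_RCT)
    (hINF : D_INF) (hCNT : D_CNT) (hTEN : D_TEN) : P_MAINT := by
  classical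
  intro R J hJ T ε hT hε p K w hp hK hw
  have hR0 : (0 : ℝ) ≤ R := Nat.cast_nonneg R
  have hw4 : 4 ≤ w := by linarith
  have hw0 : 0 < w := by linarith
  have hw1 : 1 ≤ w := by linarith
  have hK0 : 0 < K := by linarith
  have hJt : 0 ≤ Jt R J := Finset.sum_nonneg fun z _ => hJ.nonneg z
  have hVΛ : rect p K w ⊆ rect p K (4 * w) := (h5 p K w hp hK hw0.le).2.1 (4 * w) (by linarith)
  have hten := hTEN R J hJ T hT (rect p K w) (rect p K (4 * w)) hVΛ
  have hlow := h1 R J hJ T ε hT hε p K w hp hK hw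
  set c1 : ℝ := 64 * R * Jt R J / (K * w) with hc1
  set c2 : ℝ := 8 * Jt R J * ((rect p K w).card : ℝ) + 2 * T with hc2
  have hc1' : 0 ≤ c1 := by positivity
  have hc2' : 0 ≤ c2 := by positivity
  set M : Finset Site := (rect p K (4 * w) \ rect p K w).filter (fun x =>
      |(fdet p x : ℝ)| ≤ 3 * w * nrm p ∧ |(gdot p x : ℝ)| ≤ 3 * K * w * nrm p ∧
      (2 * w * nrm p < |(fdet p x : ℝ)| ∨ 2 * K * w * nrm p < |(gdot p x : ℝ)|)) with hM
  have hle : ∀ η : Site → ℝ,
      tenT R J (fun x => ε * η x) T (rect p K w) (rect p K (4 * w)) ≤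
        c1 * ∑ x ∈ M, QP R J (fun x => ε * η x) T (rect p K (4 * w) \ rect p K w)
            (Cv (rect p K w) x) +
          c2 * QP R J (fun x => ε * η x) T (rect p K (4 * w) \ rect p K w) (SPT p K w) :=
    fun η => h2 R J hJ (fun x => ε * η x) T hT p K w hp hK hw
  have hi1 : Integrable (fun η : Site → ℝ => c1 * ∑ x ∈ M, QP R J (fun x => ε * η x) T
      (rect p K (4 * w) \ rect p K w) (Cv (rect p K w) x)) gam :=
    (integrable_finsetSum _ fun x _ => int_QP hCNT hJ hT ε _ _).const_mul c1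
  have hi2 : Integrable (fun η : Site → ℝ => c2 * QP R J (fun x => ε * η x) T
      (rect p K (4 * w) \ rect p K w) (SPT p K w)) gam :=
    (int_QP hCNT hJ hT ε _ _).const_mul c2
  have hup := integral_mono_of_nonneg (Eventually.of_forall fun η : Site → ℝ =>
    hten.2.1 (fun x => ε * η x)) (hi1.add hi2) (Eventually.of_forall hle)
  have hFv : ∫ η, ((fun η : Site → ℝ => c1 * ∑ x ∈ M, QP R J (fun x => ε * η x) T
      (rect p K (4 * w) \ rect p K w) (Cv (rect p K w) x)) + fun η : Site → ℝ => c2 * QP R J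
      (fun x => ε * η x) T (rect p K (4 * w) \ rect p K w) (SPT p K w)) η ∂gam =
      c1 * ∑ x ∈ M, PA R J T ε (rect p K (4 * w) \ rect p K w) (Cv (rect p K w) x) +
        c2 * pSP R J T ε p K w := by
    rw [integral_add' hi1 hi2, integral_const_mul, integral_const_mul,
      integral_finsetSum _ fun x _ => int_QP hCNT hJ hT ε _ _]
    rfl
  rw [hFv] at hup
  -- the number of sites
  have hm0 : 0 ≤ mKT R J T ε p K (w / 2) := by
    have hx0 : (0 : Site) ∈ rect p K (w / 2) := by
      rw [(h5 p K (w / 2) hp hK (by linarith)).1]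
      have e1 : fdet p 0 = 0 := by simp [fdet]
      have e2 : gdot p 0 = 0 := by simp [gdot]
      have hn := nrm_pos hp
      rw [e1, e2]
      simp only [Int.cast_zero, abs_zero]
      constructor <;> positivity
    exact integral_nonneg fun η => ((hINF R J hJ (fun z => ε * η z) T hT).1 _ 0 hx0).2.1
  have hsum : ∑ x ∈ M, PA R J T ε (rect p K (4 * w) \ rect p K w) (Cv (rect p K w) x) ≤
      256 * K * w ^ 2 * mKT R J T ε p K (w / 2) := by
    calc ∑ x ∈ M, PA R J T ε (rect p K (4 * w) \ rect p K w) (Cv (rect p K w) x)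
        ≤ ∑ _x ∈ M, mKT R J T ε p K (w / 2) := by
          refine Finset.sum_le_sum fun x hx => ?_
          have hx' := (Finset.mem_filter.1 hx).2
          exact h3 R J hJ T ε hT p K w hp hK hw0 x hx'.1 hx'.2.1 hx'.2.2
      _ = (M.card : ℝ) * mKT R J T ε p K (w / 2) := by
          rw [Finset.sum_const, nsmul_eq_mul]
      _ ≤ (256 * K * w ^ 2) * mKT R J T ε p K (w / 2) := by
          refine mul_le_mul_of_nonneg_right ?_ hm0
          have h16 := (h4 p K (4 * w) hp hK (by linarith)).2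
          have h17 : (M.card : ℝ) ≤ ((rect p K (4 * w)).card : ℝ) := by
            exact_mod_cast Finset.card_le_card
              ((Finset.filter_subset _ _).trans Finset.sdiff_subset)
          calc (M.card : ℝ) ≤ 16 * K * (4 * w) ^ 2 := h17.trans h16
            _ = 256 * K * w ^ 2 := by ring
  have hp0 : 0 ≤ pSP R J T ε p K w :=
    integral_nonneg fun η => QP_nonneg hJ _ hT _ _
  have hc2b : c2 ≤ w * ((128 * Jt R J * K + 2 * T) * w) := by
    have h16 := (h4 p K w hp hK hw4).2
    have h17 : 8 * Jt R J * ((rect p K w).card : ℝ) ≤ 8 * Jt R J * (16 * K * w ^ 2) :=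
      mul_le_mul_of_nonneg_left h16 (by positivity)
    have h18 : 2 * T ≤ 2 * T * w ^ 2 := by
      have : (1 : ℝ) ≤ w ^ 2 := one_le_pow₀ hw1
      nlinarith
    calc c2 ≤ 8 * Jt R J * (16 * K * w ^ 2) + 2 * T * w ^ 2 := add_le_add h17 h18
      _ = _ := by ring
  have hall : w * (2 * ε * Real.sqrt K * mKT R J T ε p K (5 * w)) ≤
      c1 * (256 * K * w ^ 2 * mKT R J T ε p K (w / 2)) +
        (w * ((128 * Jt R J * K + 2 * T) * w)) * pSP R J T ε p K w := by
    calc w * (2 * ε * Real.sqrt K * mKT R J T ε p K (5 * w))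
        = 2 * ε * Real.sqrt K * w * mKT R J T ε p K (5 * w) := by ring
      _ ≤ _ := hlow.trans hup
      _ ≤ _ := add_le_add (mul_le_mul_of_nonneg_left hsum hc1')
          (mul_le_mul_of_nonneg_right hc2b hp0)
  have e1 : c1 * (256 * K * w ^ 2 * mKT R J T ε p K (w / 2)) =
      w * (16384 * R * Jt R J * mKT R J T ε p K (w / 2)) := by
    rw [hc1]
    field_simp
    ring
  have e4 : w * (16384 * R * Jt R J * mKT R J T ε p K (w / 2)) ≤
      w * (20000 * R * Jt R J * mKT R J T ε p K (w / 2)) := by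
    refine mul_le_mul_of_nonneg_left ?_ hw0.le
    have h19 : 0 ≤ R * Jt R J * mKT R J T ε p K (w / 2) := by positivity
    nlinarith
  have hfin : w * (2 * ε * Real.sqrt K * mKT R J T ε p K (5 * w)) ≤
      w * (20000 * R * Jt R J * mKT R J T ε p K (w / 2) +
        (128 * Jt R J * K + 2 * T) * w * pSP R J T ε p K w) := by
    rw [e1] at hall
    calc _ ≤ _ := hall
      _ ≤ _ := add_le_add e4 le_rfl
      _ = _ := by ring
  exact le_of_mul_le_mul_left hfin hw0

end Pool.Agent.H14.RFT
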